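import Pool.Agent.N588.FE.Three
import Pool.Agent.N863.FEWT

/-!
# Number and dimensions of the irreducible constituents (project FE, leaf CNT)
-/

set_option autoImplicit false
set_option linter.unusedSectionVars false

namespace Pool.Agent.N588.FE

open Module LieAlgebra LieModule
open Pool.Agent.N863.FE
open Pool.Agent.N183.FE (Bd Dd S_CNT)

attribute [local instance 100] LieRing.ofAssociativeRing

/-- the radical acts by scalars on irreducible modules -/
theorem rad_scalar (k L M : Type) [Field k] [CharZero k] [LieRing L] [LieAlgebra k L]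
    [Module.Finite k L] [AddCommGroup M] [Module k M] [LieRingModule L M] [LieModule k L M]
    [Module.Finite k M] [IsIrreducible k L M] [IsTriangularizable k L M] (x : L)
    (hx : x ∈ radical k L) : ∃ c : k, ∀ m : M, ⁅x, m⁆ = c • m := by
  have _i := nontrivial_of_isIrreducible k L M
  obtain ⟨χ, hχ⟩ : ∃ χ : Module.Dual k (radical k L), Nontrivial (weightSpace M χ) :=
    exists_nontrivial_weightSpace_of_isSolvable k (radical k L) M
  let N : LieSubmodule k L M := weightSpaceOfIsLieTower k M χ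
  replace hχ : Nontrivial N := hχ
  replace hχ : N = ⊤ := N.eq_top_of_isIrreducible k L M
  refine ⟨χ ⟨x, hx⟩, fun m => ?_⟩
  have hm : ∀ (y : L) (hy : y ∈ radical k L), ⁅y, m⁆ = χ ⟨y, hy⟩ • m := by
    simpa [N, weightSpaceOfIsLieTower, mem_weightSpace] using
      (hχ ▸ LieSubmodule.mem_top _ : m ∈ N)
  exact hm x hx

/-- semisimple Lie algebras are perfect -/
theorem perfect (k L : Type) [Field k] [LieRing L] [LieAlgebra k L] [Module.Finite k L]
    [IsSemisimple k L] (S : Submodule k L) (hS : ∀ a b : L, ⁅a, b⁆ ∈ S) (y : L) : y ∈ S := by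
  have hD : (⊤ : LieIdeal k L) ≤ ⁅(⊤ : LieIdeal k L), (⊤ : LieIdeal k L)⁆ := by
    conv_lhs => rw [← IsSemisimple.sSup_atoms_eq_top (R := k) (L := L)]
    refine sSup_le fun I hI => ?_
    calc I = ⁅I, I⁆ := (lie_eq_self_of_isAtom_of_nonabelian I hI
          (IsSemisimple.non_abelian_of_isAtom I hI)).symm
      _ ≤ ⁅(⊤ : LieIdeal k L), (⊤ : LieIdeal k L)⁆ := LieSubmodule.mono_lie le_top le_top
  have hy : y ∈ (⁅(⊤ : LieIdeal k L), (⊤ : LieIdeal k L)⁆ : LieIdeal k L).toSubmodule :=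
    hD (LieSubmodule.mem_top y)
  rw [LieSubmodule.lieIdeal_oper_eq_linear_span'] at hy
  refine (Submodule.span_le.2 ?_) hy
  rintro _ ⟨a, _, b, _, rfl⟩
  exact hS a b

section

variable {Ω : Type} [Field Ω] [IsAlgClosed Ω] [CharZero Ω] {s : ℕ}
  {V : Fin s → Type} [∀ i, AddCommGroup (V i)] [∀ i, Module Ω (V i)]
  [∀ i, FiniteDimensional Ω (V i)] [∀ i, Nontrivial (V i)]

/-- the projection to trace zero -/
noncomputable def tt : (∀ i, End Ω (V i)) →ₗ[Ω] (∀ i, End Ω (V i)) :=
  LinearMap.pi fun i => (t Ω (V i)).comp (LinearMap.proj i)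

/-- scalars -/
noncomputable def sc : (Fin s → Ω) →ₗ[Ω] (∀ i, End Ω (V i)) :=
  LinearMap.pi fun i => (LinearMap.toSpanSingleton Ω (End Ω (V i)) 1).comp (LinearMap.proj i)

/-- the normalised traces -/
noncomputable def tau (x : ∀ i, End Ω (V i)) (i : Fin s) : Ω :=
  LinearMap.trace Ω (V i) (x i) * (finrank Ω (V i) : Ω)⁻¹

theorem tt_sc (x : ∀ i, End Ω (V i)) : x = tt x + sc (tau x) := by
  funext i
  change x i = t Ω (V i) (x i) + tau x i • (1 : End Ω (V i))
  rw [t_apply, tau, sub_add_cancel]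

theorem tt_lie (x y : ∀ i, End Ω (V i)) : tt x * tt y - tt y * tt x = x * y - y * x := by
  funext i
  have h1 : LinearMap.trace Ω (V i) (x i * y i - y i * x i) = 0 := by
    rw [map_sub, LinearMap.trace_mul_comm, sub_self]
  change t Ω (V i) (x i) * t Ω (V i) (y i) - t Ω (V i) (y i) * t Ω (V i) (x i) =
    x i * y i - y i * x i
  rw [t_lie, t_apply, h1, zero_mul, zero_smul, sub_zero]

variable (L : Submodule Ω (∀ i, End Ω (V i))) (hbr : ∀ x ∈ L, ∀ y ∈ L, x * y - y * x ∈ L)

/-- the operators of trace zero -/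
noncomputable def sl' : LieSubalgebra Ω (∀ i, End Ω (V i)) :=
  { L.map tt with
    lie_mem' := by
      rintro _ _ ⟨x, hx, rfl⟩ ⟨y, hy, rfl⟩
      refine ⟨x * y - y * x, hbr x hx y hy, ?_⟩
      have h1 := tt_lie x y
      funext i
      have h2 : LinearMap.trace Ω (V i) (x i * y i - y i * x i) = 0 := by
        rw [map_sub, LinearMap.trace_mul_comm, sub_self]
      have h3 : tt (x * y - y * x) i = (x * y - y * x) i := by
        change t Ω (V i) (x i * y i - y i * x i) = x i * y i - y i * x i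
        rw [t_apply, h2, zero_mul, zero_smul, sub_zero]
      rw [h3, ← h1]
      rfl }

/-- the action -/
@[instance_reducible]
noncomputable def lrm (i : Fin s) : LieRingModule (sl' L hbr) (V i) where
  bracket y v := y.1 i v
  add_lie _ _ _ := rfl
  lie_add y v w := map_add (y.1 i) v w
  leibniz_lie y z v := by
    change y.1 i (z.1 i v) = (y.1 i (z.1 i v) - z.1 i (y.1 i v)) + z.1 i (y.1 i v)
    rw [sub_add_cancel]

attribute [local instance] lrm

/-- the action -/
theorem lm (i : Fin s) : LieModule Ω (sl' L hbr) (V i) where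
  smul_lie _ _ _ := rfl
  lie_smul c y v := map_smul (y.1 i) c v

attribute [local instance] lm

theorem lie_def (i : Fin s) (y : sl' L hbr) (v : V i) : ⁅y, v⁆ = y.1 i v := rfl

theorem irr_sl (hirr : ∀ i, ∀ U : Submodule Ω (V i), (∀ x ∈ L, ∀ u ∈ U, x i u ∈ U) →
    U = ⊥ ∨ U = ⊤) (i : Fin s) (U : Submodule Ω (V i))
    (hU : ∀ y : sl' L hbr, ∀ u ∈ U, ⁅y, u⁆ ∈ U) : U = ⊥ ∨ U = ⊤ := by
  refine hirr i U fun x hx u hu => ?_
  have h1 : (⟨tt x, x, hx, rfl⟩ : sl' L hbr).1 i u ∈ U := hU _ u hu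
  have h2 : x i u = tt x i u + tau x i • u := by
    conv_lhs => rw [tt_sc x]
    rfl
  rw [h2]
  exact U.add_mem h1 (U.smul_mem _ hu)

theorem killing_sl (hirr : ∀ i, ∀ U : Submodule Ω (V i), (∀ x ∈ L, ∀ u ∈ U, x i u ∈ U) →
    U = ⊥ ∨ U = ⊤) : HasTrivialRadical Ω (sl' L hbr) := by
  refine ⟨?_⟩
  rw [LieSubmodule.eq_bot_iff]
  intro y hy
  refine Subtype.ext (funext fun i => ?_)
  have hI : IsIrreducible Ω (sl' L hbr) (V i) := by
    refine IsIrreducible.mk fun N hN => ?_
    rcases irr_sl L hbr hirr i N.toSubmodule (fun y u hu => N.lie_mem hu) with h | h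
    · exact absurd ((LieSubmodule.toSubmodule_eq_bot N).1 h) hN
    · exact (LieSubmodule.toSubmodule_eq_top N).1 h
  obtain ⟨c, hc⟩ := rad_scalar Ω (sl' L hbr) (V i) y hy
  have h1 : y.1 i = c • (1 : End Ω (V i)) := LinearMap.ext fun v => hc v
  have h0 : (finrank Ω (V i) : Ω) ≠ 0 := Nat.cast_ne_zero.2 (finrank_pos (R := Ω) (M := V i)).ne'
  have h2 : LinearMap.trace Ω (V i) (y.1 i) = 0 := by
    obtain ⟨x, hx, hxy⟩ := y.2
    rw [← hxy]
    exact t_trace (x i)
  rw [h1, map_smul, LinearMap.trace_one, smul_eq_mul] at h2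
  rcases mul_eq_zero.1 h2 with h3 | h3
  · rw [h1, h3, zero_smul]
    rfl
  · exact absurd h3 h0

end

theorem CNT : S_CNT := by
  intro Ω _ _ _ s k V _ _ _ _ L hbr hirr hfew hhom
  letI : ∀ i, LieRingModule (sl' L hbr) (V i) := lrm L hbr
  haveI : ∀ i, LieModule Ω (sl' L hbr) (V i) := lm L hbr
  haveI hR : HasTrivialRadical Ω (sl' L hbr) := killing_sl L hbr hirr
  haveI hK : IsKilling Ω (sl' L hbr) := inferInstance
  haveI hS : IsSemisimple Ω (sl' L hbr) := inferInstance
  have hle : ∀ y : sl' L hbr, y.1 ∈ L := by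
    intro y
    refine perfect Ω (sl' L hbr) (L.comap (sl' L hbr).toSubmodule.subtype) ?_ y
    rintro ⟨_, x, hx, rfl⟩ ⟨_, z, hz, rfl⟩
    change tt x * tt z - tt z * tt x ∈ L
    rw [tt_lie]
    exact hbr x hx z hz
  refine count (𝔤 := sl' L hbr) (V := V) k (L.comap sc)
    (fun y hy => Subtype.ext (funext fun i => LinearMap.ext fun v => hy i v))
    (fun i U hU => irr_sl L hbr hirr i U hU) ?_ ?_
  · intro y a ha T hT
    refine hfew (y.1 + sc a) (L.add_mem (hle y) ha) T fun b hb => ?_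
    obtain ⟨i, v, hv0, hv⟩ := hT b hb
    exact ⟨i, End.hasEigenvalue_of_hasEigenvector (x := v)
      ⟨End.mem_eigenspace_iff.2 hv, hv0⟩⟩
  · intro i j hij hA f hf
    refine hhom i j hij f fun x hx v => ?_
    have h1 : tt x ∈ L := hle ⟨tt x, x, hx, rfl⟩
    have h2 : tau x ∈ L.comap (sc (V := V)) := by
      rw [Submodule.mem_comap]
      have h3 := L.sub_mem hx h1
      conv at h3 => enter [2, 1]; rw [tt_sc x]
      rwa [add_sub_cancel_left] at h3
    have h3 := hA _ h2
    have h4 : ∀ i (u : V i), x i u = tt x i u + tau x i • u := by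
      intro i u
      conv_lhs => rw [tt_sc x]
      rfl
    have h5 : f (tt x i v) = tt x j (f v) := hf ⟨tt x, x, hx, rfl⟩ v
    rw [h4, h4, map_add, map_smul, h5, h3]

end Pool.Agent.N588.FE
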