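import Pool.Agent.N906.KG.Nt

/-! Project KG, part DISC: elements of a class modulo an ideal in a product of discs (helper588). -/

set_option autoImplicit false

namespace Pool.Agent.N588.KG

open NumberField IsDedekindDomain Finset Pool.Agent.H691R3 Pool.Agent.W223.AK
open Pool.Agent.N906.KG (bn S_DISC)

section

variable {K : Type} [Field K] [NumberField K]

/-- a nonzero element of an ideal has a norm at least the norm of the ideal -/
theorem norm_ge {z : K} (hz : z ≠ 0) (m : Idl K)
    (h : ∀ v, fv v z ≤ (Nv v) ^ (-(m v : ℤ))) :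
    Real.exp (len m) ≤ ∏ w : InfinitePlace K, w z ^ w.mult := by
  classical
  have h0 := log_product_formula hz
  set S := (log_fv_support_finite hz).toFinset ∪ m.support with hS
  have h1 : ∑ᶠ v : HeightOneSpectrum (𝓞 K), Real.log (fv v z) = ∑ v ∈ S, Real.log (fv v z) := by
    refine finsum_eq_sum_of_support_subset _ ?_
    intro v hv
    rw [hS, Finset.coe_union, Set.Finite.coe_toFinset]
    exact Or.inl hv
  have h2 : ∀ v ∈ S, Real.log (fv v z) ≤ -((m v : ℝ) * Real.log (Nv v)) := by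
    intro v _
    have h3 := Real.log_le_log ((fv v).pos hz) (h v)
    rw [Real.log_zpow] at h3
    push_cast at h3
    linarith
  have h3 : len m = ∑ v ∈ S, (m v : ℝ) * Real.log (Nv v) := by
    unfold len
    refine Finset.sum_subset (by rw [hS]; exact Finset.subset_union_right) ?_
    intro v _ hv
    rw [Finsupp.notMem_support_iff.1 hv]
    simp
  have h4 : len m ≤ ∑ w : InfinitePlace K, (w.mult : ℝ) * Real.log (w z) := by
    have h5 := Finset.sum_le_sum h2
    rw [Finset.sum_neg_distrib, ← h3] at h5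
    rw [h1] at h0
    linarith
  refine (Real.exp_le_exp.2 h4).trans (le_of_eq ?_)
  rw [Real.exp_sum]
  refine Finset.prod_congr rfl fun w _ => ?_
  rw [Real.exp_nat_mul, Real.exp_log (InfinitePlace.pos_iff.2 hz)]

end

variable (K : Type) [Field K] [NumberField K]

theorem disc : S_DISC K := by
  classical
  set d := Module.finrank ℚ K with hd
  refine ⟨16 * 2 ^ d, by positivity, ?_⟩
  intro a ρ m F hρ hF hm
  have hbn : 0 < bn ρ := Finset.prod_pos fun w _ => pow_pos (hρ w) _
  set T : ℝ := 2 ^ d * bn ρ * Real.exp (-len m) with hT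
  have hT0 : 0 < T := by positivity
  obtain ⟨w₀⟩ : Nonempty (InfinitePlace K) := inferInstance
  have hm0 : (w₀.mult : ℝ) ≠ 0 := by exact_mod_cast InfinitePlace.mult_ne_zero
  set u := Real.log T with hu
  set r : ℝ := 2 * ρ w₀ * Real.exp (-(u / w₀.mult)) with hr
  have hρ0 := hρ w₀
  have hr0 : 0 < r := by positivity
  have hprod : ∏ w : InfinitePlace K, (2 * ρ w) ^ w.mult = 2 ^ d * bn ρ := by
    unfold bn
    rw [hd, ← InfinitePlace.sum_mult_eq, ← Finset.prod_pow_eq_pow_sum, ← Finset.prod_mul_distrib]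
    exact Finset.prod_congr rfl fun w _ => mul_pow _ _ _
  have hdiff : ∀ x ∈ F, ∀ y ∈ F, ∀ w : InfinitePlace K, w ((x : K) - (y : K)) ≤ 2 * ρ w := by
    intro x hx y hy w
    rw [← InfinitePlace.norm_embedding_eq, map_sub]
    calc ‖w.embedding (x : K) - w.embedding (y : K)‖
        = ‖(w.embedding (x : K) - a w) - (w.embedding (y : K) - a w)‖ := by congr 1; ring
      _ ≤ ‖w.embedding (x : K) - a w‖ + ‖w.embedding (y : K) - a w‖ := norm_sub_le _ _
      _ ≤ ρ w + ρ w := add_le_add (hF x hx w) (hF y hy w)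
      _ = 2 * ρ w := by ring
  have hsep : ∀ x ∈ F, ∀ y ∈ F, x ≠ y → r ≤ w₀ ((x : K) - (y : K)) := by
    intro x hx y hy hxy
    have hz : (x : K) - (y : K) ≠ 0 := sub_ne_zero.2 fun h => hxy (RingOfIntegers.coe_injective h)
    have h1 := norm_ge hz m (hm x hx y hy)
    rw [← Finset.mul_prod_erase _ _ (Finset.mem_univ w₀)] at h1 hprod
    set Q := ∏ w ∈ Finset.univ.erase w₀, (2 * ρ w) ^ w.mult with hQ
    have hQ0 : 0 < Q := Finset.prod_pos fun w _ => pow_pos (by linarith [hρ w]) _
    have h2 : ∏ w ∈ Finset.univ.erase w₀, w ((x : K) - (y : K)) ^ w.mult ≤ Q :=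
      Finset.prod_le_prod (fun w _ => pow_nonneg (apply_nonneg w _) _)
        fun w _ => pow_le_pow_left₀ (apply_nonneg w _) (hdiff x hx y hy w) _
    have h3 : Real.exp (len m) ≤ w₀ ((x : K) - (y : K)) ^ w₀.mult * Q :=
      h1.trans (mul_le_mul_of_nonneg_left h2 (pow_nonneg (apply_nonneg w₀ _) _))
    have hmn : w₀.mult ≠ 0 := InfinitePlace.mult_ne_zero
    refine le_of_pow_le_pow_left₀ hmn (apply_nonneg w₀ _) ?_
    have h4 : Real.exp (-(u / w₀.mult)) ^ w₀.mult = T⁻¹ := by
      rw [← Real.exp_nat_mul, mul_neg, mul_div_cancel₀ _ hm0, Real.exp_neg, hu, Real.exp_log hT0]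
    rw [hr, mul_pow, h4, ← div_eq_mul_inv, div_le_iff₀ hT0, hT, ← hprod]
    have h5 : (0 : ℝ) ≤ (2 * ρ w₀) ^ w₀.mult := by positivity
    have h6 : Real.exp (len m) * Real.exp (-len m) = 1 := by
      rw [← Real.exp_add, add_neg_cancel, Real.exp_zero]
    calc (2 * ρ w₀) ^ w₀.mult
        = (2 * ρ w₀) ^ w₀.mult * (Real.exp (len m) * Real.exp (-len m)) := by rw [h6, mul_one]
      _ ≤ (2 * ρ w₀) ^ w₀.mult *
          ((w₀ ((x : K) - (y : K)) ^ w₀.mult * Q) * Real.exp (-len m)) := by gcongr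
      _ = _ := by ring
  rcases F.eq_empty_or_nonempty with rfl | ⟨x0, hx0⟩
  · simp only [Finset.card_empty, Nat.cast_zero]
    positivity
  have hinj : Function.Injective (fun x : 𝓞 K => (x : K)) := RingOfIntegers.coe_injective
  have h1 := packing_place w₀ (F.image fun x : 𝓞 K => (x : K)) (x0 : K) (2 * ρ w₀) r
    (by positivity) hr0 ?_ ?_
  · rw [Finset.card_image_of_injective _ hinj] at h1
    have h2 : 2 * (2 * ρ w₀) / r = 2 * Real.exp (u / w₀.mult) := by
      rw [hr, Real.exp_neg, div_eq_iff (by positivity)]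
      field_simp
    rw [h2] at h1
    refine (h1.trans (pow_mult_le w₀ _)).trans ?_
    rw [hu, Real.exp_log hT0, hT]
    have h3 : (1 : ℝ) ≤ 2 ^ d := one_le_pow₀ (by norm_num)
    nlinarith
  · intro y hy
    obtain ⟨x, hx, rfl⟩ := Finset.mem_image.mp hy
    exact hdiff x hx x0 hx0 w₀
  · intro y hy y' hy' hne
    obtain ⟨x, hx, rfl⟩ := Finset.mem_image.mp hy
    obtain ⟨x', hx', rfl⟩ := Finset.mem_image.mp hy'
    exact hsep x hx x' hx' fun h => hne (by rw [h])

end Pool.Agent.N588.KG
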